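import Mathlib

/-!
# Bowen functions modulo weak coboundaries (MP_3e6e51_an)

On every full shift over a finite alphabet with at least two letters there is a continuous Bowen
function which is not the sum of a weak coboundary and a Walters function.
-/

open Filter Topology Set

namespace Pool.Agent.Results.MP_3e6e51_an.BowenNotWalters

variable {A : Type*}

/-- The left shift. -/
def shift (x : ℕ → A) : ℕ → A := fun i => x (i + 1)

open Classical in
/-- The metric `d(x,y) = 2^{- min {i : x_i ≠ y_i}}`. -/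
noncomputable def d (x y : ℕ → A) : ℝ := if x = y then 0 else (2 : ℝ)⁻¹ ^ (sInf {i | x i ≠ y i})

/-- The Birkhoff sum `S_n f (x) = ∑_{k<n} f (σ^k x)`. -/
noncomputable def S (f : (ℕ → A) → ℝ) (n : ℕ) (x : ℕ → A) : ℝ :=
  ∑ k ∈ Finset.range n, f (shift^[k] x)

/-- Walters functions. -/
def IsWalters (f : (ℕ → A) → ℝ) : Prop :=
  ∀ κ > 0, ∃ ε > 0, ∀ n ≥ 1, ∀ x y : ℕ → A,
    (∀ k < n, d (shift^[k] x) (shift^[k] y) < ε) → |S f n x - S f n y| < κ

/-- Bowen functions. -/
def IsBowen (f : (ℕ → A) → ℝ) : Prop :=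
  ∃ M > 0, ∃ ε > 0, ∀ n ≥ 1, ∀ x y : ℕ → A,
    (∀ k < n, d (shift^[k] x) (shift^[k] y) < ε) → |S f n x - S f n y| ≤ M

lemma shift_iter (x : ℕ → A) (k i : ℕ) : (shift^[k] x) i = x (i + k) := by
  induction k generalizing x i with
  | zero => rfl
  | succ k ih =>
    rw [Function.iterate_succ_apply, ih]
    show x (i + k + 1) = x (i + (k + 1))
    rfl

lemma S_succ' (f : (ℕ → A) → ℝ) (n : ℕ) (x : ℕ → A) : S f (n + 1) x = f x + S f n (shift x) := by
  unfold S
  rw [Finset.sum_range_succ', add_comm]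
  rfl

lemma S_add (f : (ℕ → A) → ℝ) (m n : ℕ) (x : ℕ → A) :
    S f (m + n) x = S f m x + S f n (shift^[m] x) := by
  unfold S
  rw [Finset.sum_range_add]
  congr 1
  refine Finset.sum_congr rfl fun k _ => ?_
  rw [← Function.iterate_add_apply, add_comm]

lemma agree_of_d_lt_one {x y : ℕ → A} (h : d x y < 1) : x 0 = y 0 := by
  classical
  by_contra hne
  have hxy : x ≠ y := fun h' => hne (by rw [h'])
  have h0 : sInf {i | x i ≠ y i} = 0 := Nat.sInf_eq_zero.2 (Or.inl hne)
  unfold d at h
  rw [if_neg hxy, h0] at h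
  norm_num at h

lemma d_lt {x y : ℕ → A} {N : ℕ} {ε : ℝ} (hε : 0 < ε) (hN : (2 : ℝ)⁻¹ ^ N < ε)
    (h : ∀ i < N, x i = y i) : d x y < ε := by
  classical
  unfold d
  split_ifs with hxy
  · exact hε
  · obtain ⟨j, hj⟩ := Function.ne_iff.1 hxy
    have hmem : sInf {i | x i ≠ y i} ∈ {i | x i ≠ y i} := Nat.sInf_mem ⟨j, hj⟩
    have hle : N ≤ sInf {i | x i ≠ y i} := by
      by_contra hlt
      exact hmem (h _ (not_le.1 hlt))
    refine lt_of_le_of_lt ?_ hN
    exact pow_le_pow_of_le_one (by norm_num) (by norm_num) hle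

/-! ### The slowly oscillating sequence -/

/-- `s (2^k + a) = a / 2^k` for even `k` and `1 - a / 2^k` for odd `k`, `0 ≤ a < 2^k`. -/
noncomputable def s (i : ℕ) : ℝ :=
  if i = 0 then 0 else
    if Even (Nat.log 2 i) then (i : ℝ) / 2 ^ (Nat.log 2 i) - 1 else 2 - (i : ℝ) / 2 ^ (Nat.log 2 i)

lemma s_bounds (i : ℕ) : 0 ≤ s i ∧ s i ≤ 1 := by
  unfold s
  split_ifs with h0 he
  · norm_num
  · have h1 : (2 : ℝ) ^ (Nat.log 2 i) ≤ i := by exact_mod_cast Nat.pow_log_le_self 2 h0
    have h2 : (i : ℝ) < 2 ^ (Nat.log 2 i + 1) := by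
      exact_mod_cast Nat.lt_pow_succ_log_self (by norm_num) i
    have hp : (0 : ℝ) < 2 ^ (Nat.log 2 i) := by positivity
    rw [pow_succ] at h2
    constructor
    · rw [sub_nonneg, le_div_iff₀ hp]; linarith
    · rw [sub_le_iff_le_add, div_le_iff₀ hp]; linarith
  · have h1 : (2 : ℝ) ^ (Nat.log 2 i) ≤ i := by exact_mod_cast Nat.pow_log_le_self 2 h0
    have h2 : (i : ℝ) < 2 ^ (Nat.log 2 i + 1) := by
      exact_mod_cast Nat.lt_pow_succ_log_self (by norm_num) i
    have hp : (0 : ℝ) < 2 ^ (Nat.log 2 i) := by positivity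
    rw [pow_succ] at h2
    constructor
    · rw [sub_nonneg, div_le_iff₀ hp]; linarith
    · rw [sub_le_comm, le_div_iff₀ hp]; linarith

lemma s_zero : s 0 = 0 := by simp [s]

lemma s_step (i : ℕ) (hi : i ≠ 0) : |s (i + 1) - s i| ≤ 2 / i := by
  have hi' : (0 : ℝ) < i := by exact_mod_cast Nat.pos_of_ne_zero hi
  have h1 : 2 ^ (Nat.log 2 i) ≤ i := Nat.pow_log_le_self 2 hi
  have h2 : i < 2 ^ (Nat.log 2 i + 1) := Nat.lt_pow_succ_log_self (by norm_num) i
  set k := Nat.log 2 i with hk
  have hp : (0 : ℝ) < 2 ^ k := by positivity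
  have h2' : (i : ℝ) < 2 ^ (k + 1) := by exact_mod_cast h2
  have hb : 1 / (2 : ℝ) ^ k ≤ 2 / i := by
    rw [div_le_div_iff₀ hp hi']
    rw [pow_succ] at h2'
    linarith
  refine le_trans ?_ hb
  rcases Nat.lt_or_ge (i + 1) (2 ^ (k + 1)) with h | h
  · have hk' : Nat.log 2 (i + 1) = k := by
      rw [Nat.log_eq_iff (Or.inr ⟨by norm_num, by omega⟩)]
      exact ⟨by omega, h⟩
    unfold s
    rw [if_neg hi, if_neg (Nat.succ_ne_zero i), hk', ← hk]
    split_ifs with he
    · rw [show ((i + 1 : ℕ) : ℝ) / 2 ^ k - 1 - ((i : ℝ) / 2 ^ k - 1) = 1 / 2 ^ k by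
        push_cast; ring]
      rw [abs_of_pos (by positivity)]
    · rw [show 2 - ((i + 1 : ℕ) : ℝ) / 2 ^ k - (2 - (i : ℝ) / 2 ^ k) = - (1 / 2 ^ k) by
        push_cast; ring]
      rw [abs_neg, abs_of_pos (by positivity)]
  · have he : i + 1 = 2 ^ (k + 1) := by omega
    have hk' : Nat.log 2 (i + 1) = k + 1 := by rw [he, Nat.log_pow (by norm_num)]
    have he' : (i : ℝ) = 2 ^ (k + 1) - 1 := by
      have : ((i + 1 : ℕ) : ℝ) = 2 ^ (k + 1) := by rw [he]; push_cast; rfl
      push_cast at this
      linarith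
    unfold s
    rw [if_neg hi, if_neg (Nat.succ_ne_zero i), hk', ← hk]
    by_cases hev : Even k
    · have hodd : ¬ Even (k + 1) := by rw [Nat.even_add_one]; exact not_not.2 hev
      rw [if_neg hodd, if_pos hev, he]
      push_cast
      rw [he', div_self (by positivity), pow_succ]
      rw [show (2 : ℝ) - 1 - ((2 ^ k * 2 - 1) / 2 ^ k - 1) = 1 / 2 ^ k by field_simp; ring]
      rw [abs_of_pos (by positivity)]
    · have heven : Even (k + 1) := by rw [Nat.even_add_one]; exact hev
      rw [if_pos heven, if_neg hev, he]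
      push_cast
      rw [he', div_self (by positivity), pow_succ]
      rw [show (1 : ℝ) - 1 - (2 - (2 ^ k * 2 - 1) / 2 ^ k) = - (1 / 2 ^ k) by field_simp; ring]
      rw [abs_neg, abs_of_pos (by positivity)]

lemma s_four (k : ℕ) : s (4 ^ k) = 0 := by
  have h : (4 : ℕ) ^ k = 2 ^ (2 * k) := by rw [pow_mul]; norm_num
  unfold s
  rw [if_neg (by positivity), h, Nat.log_pow (by norm_num), if_pos (by exact even_two_mul k)]
  push_cast
  rw [div_self (by positivity), sub_self]

lemma s_two_four (k : ℕ) : s (4 ^ k + 4 ^ k) = 1 := by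
  have h : (4 : ℕ) ^ k + 4 ^ k = 2 ^ (2 * k + 1) := by
    rw [pow_succ, pow_mul]; norm_num; ring
  have hodd : ¬ Even (2 * k + 1) := by
    rw [Nat.even_add_one]; exact not_not.2 (even_two_mul k)
  unfold s
  rw [if_neg (by positivity), h, Nat.log_pow (by norm_num), if_neg hodd]
  push_cast
  rw [div_self (by positivity)]
  norm_num

/-- The increments. -/
noncomputable def e (i : ℕ) : ℝ := s i - s (i - 1)

lemma e_zero : e 0 = 0 := by simp [e]

lemma e_abs (i : ℕ) (hi : 2 ≤ i) : |e i| ≤ 2 / (i - 1 : ℝ) := by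
  obtain ⟨j, rfl⟩ : ∃ j, i = j + 1 := ⟨i - 1, by omega⟩
  have hj : j ≠ 0 := by omega
  have := s_step j hj
  unfold e
  simpa using this

lemma sum_e (m : ℕ) : ∑ k ∈ Finset.range (m + 1), e k = s m := by
  induction m with
  | zero => simp [e_zero, s_zero]
  | succ m ih =>
    rw [Finset.sum_range_succ, ih]
    unfold e
    simp

/-! ### The Bowen function -/

/-- The first index with a letter different from `o` (zero if there is none). -/
noncomputable def fst (o : A) (x : ℕ → A) : ℕ := sInf {i | x i ≠ o}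

/-- The function. -/
noncomputable def phi (o : A) (x : ℕ → A) : ℝ := e (fst o x)

lemma fst_eq {o : A} {x : ℕ → A} {j : ℕ} (h1 : ∀ i < j, x i = o) (h2 : x j ≠ o) : fst o x = j := by
  unfold fst
  apply le_antisymm
  · exact Nat.sInf_le h2
  · by_contra hlt
    have hmem : sInf {i | x i ≠ o} ∈ {i | x i ≠ o} := Nat.sInf_mem ⟨j, h2⟩
    exact hmem (h1 _ (not_le.1 hlt))

lemma fst_const {o : A} {x : ℕ → A} (h : ∀ i, x i = o) : fst o x = 0 := by
  unfold fst
  have : {i | x i ≠ o} = ∅ := by
    ext i; simp [h i]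
  rw [this, Nat.sInf_empty]

lemma fst_ge {o : A} {x : ℕ → A} {n : ℕ} (h : ∀ i < n, x i = o) : fst o x = 0 ∨ n ≤ fst o x := by
  by_cases hx : ∀ i, x i = o
  · exact Or.inl (fst_const hx)
  · push Not at hx
    obtain ⟨j, hj⟩ := hx
    right
    have hmem : sInf {i | x i ≠ o} ∈ {i | x i ≠ o} := Nat.sInf_mem ⟨j, hj⟩
    by_contra hlt
    exact hmem (h _ (not_le.1 hlt))

lemma exists_least {o : A} {x : ℕ → A} {n : ℕ} (h : ∃ j < n, x j ≠ o) :
    ∃ j < n, x j ≠ o ∧ ∀ i < j, x i = o := by
  classical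
  have h' : ∃ j, x j ≠ o := ⟨h.choose, h.choose_spec.2⟩
  refine ⟨Nat.find h', ?_, Nat.find_spec h', fun i hi => ?_⟩
  · exact lt_of_le_of_lt (Nat.find_min' h' h.choose_spec.2) h.choose_spec.1
  · by_contra hne
    exact Nat.find_min h' hi hne

/-- telescoping on a run of `o` -/
lemma S_run (o : A) (n : ℕ) : ∀ x : ℕ → A, (∀ i < n, x i = o) →
    S (phi o) n x = s (fst o x) - s (fst o (shift^[n] x)) := by
  induction n with
  | zero => intro x _; simp [S]
  | succ n ih =>
    intro x hx
    rw [S_succ', ih (shift x) (fun i hi => hx (i + 1) (by omega)), Function.iterate_succ_apply]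
    have h0 : phi o x = s (fst o x) - s (fst o (shift x)) := by
      unfold phi
      by_cases hc : ∀ i, x i = o
      · rw [fst_const hc, fst_const (x := shift x) (fun i => hc (i + 1)), e_zero]; ring
      · push Not at hc
        obtain ⟨j, hj⟩ := hc
        obtain ⟨j, -, hj1, hj2⟩ := exists_least (n := j + 1) ⟨j, by omega, hj⟩
        have hj0 : j ≠ 0 := fun h => hj1 (by rw [h]; exact hx 0 (by omega))
        have h1 : fst o x = j := fst_eq hj2 hj1
        have h2 : fst o (shift x) = j - 1 := by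
          apply fst_eq
          · intro i hi
            exact hj2 (i + 1) (by omega)
          · show x (j - 1 + 1) ≠ o
            rw [Nat.sub_add_cancel (Nat.pos_of_ne_zero hj0)]
            exact hj1
        rw [h1, h2]
        rfl
    rw [h0]
    ring

lemma S_diff (o : A) (n : ℕ) : ∀ x y : ℕ → A, (∀ i < n, x i = y i) →
    |S (phi o) n x - S (phi o) n y| ≤ 4 := by
  induction n with
  | zero => intro x y _; simp [S]
  | succ n ih =>
    intro x y hxy
    by_cases h : ∃ j < n + 1, x j ≠ o
    · obtain ⟨j, hjn, hj1, hj2⟩ := exists_least h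
      have h1 : fst o x = j := fst_eq hj2 hj1
      have h2 : fst o y = j := by
        apply fst_eq
        · intro i hi; rw [← hxy i (by omega)]; exact hj2 i hi
        · rw [← hxy j hjn]; exact hj1
      rw [S_succ', S_succ']
      have h3 : phi o x = phi o y := by unfold phi; rw [h1, h2]
      rw [h3, add_sub_add_left_eq_sub]
      exact ih _ _ (fun i hi => hxy (i + 1) (by omega))
    · push Not at h
      rw [S_run o (n + 1) x h, S_run o (n + 1) y (fun i hi => by rw [← hxy i hi]; exact h i hi)]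
      have a1 := s_bounds (fst o x)
      have a2 := s_bounds (fst o y)
      have a3 := s_bounds (fst o (shift^[n + 1] x))
      have a4 := s_bounds (fst o (shift^[n + 1] y))
      rw [abs_le]
      constructor <;> linarith [a1.1, a1.2, a2.1, a2.2, a3.1, a3.2, a4.1, a4.2]

lemma phi_bowen (o : A) : IsBowen (phi o) := by
  refine ⟨4, by norm_num, 1, one_pos, fun n _ x y h => ?_⟩
  apply S_diff
  intro i hi
  have := agree_of_d_lt_one (h i hi)
  rwa [shift_iter, shift_iter, zero_add] at this

lemma phi_continuous [TopologicalSpace A] [DiscreteTopology A] (o : A) : Continuous (phi o) := by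
  rw [continuous_iff_continuousAt]
  intro x
  have hcyl : ∀ n : ℕ, ∀ᶠ y in 𝓝 x, ∀ i < n, y i = x i := by
    intro n
    have : ∀ i ∈ Finset.range n, ∀ᶠ y : ℕ → A in 𝓝 x, y i = x i := by
      intro i _
      have h1 : IsOpen ((fun y : ℕ → A => y i) ⁻¹' {x i}) :=
        (isOpen_discrete ({x i} : Set A)).preimage (continuous_apply i)
      exact h1.mem_nhds rfl
    have h2 := (Filter.eventually_all_finset (Finset.range n)).2 this
    filter_upwards [h2] with y hy i hi
    exact hy i (Finset.mem_range.2 hi)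
  by_cases hx : ∀ i, x i = o
  · have h0 : phi o x = 0 := by unfold phi; rw [fst_const hx, e_zero]
    rw [Metric.continuousAt_iff']
    intro ε hε
    obtain ⟨n, hn⟩ := exists_nat_gt (2 / ε)
    filter_upwards [hcyl (n + 2)] with y hy
    rw [h0, Real.dist_eq, sub_zero]
    have h1 : ∀ i < n + 2, y i = o := fun i hi => by rw [hy i hi, hx i]
    unfold phi
    rcases fst_ge h1 with h | h
    · rw [h, e_zero, abs_zero]; exact hε
    · refine lt_of_le_of_lt (e_abs _ (by omega)) ?_
      have h3 : (n : ℝ) + 2 ≤ fst o y := by exact_mod_cast h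
      have h4 : (0 : ℝ) < (fst o y : ℝ) - 1 := by
        have : (0 : ℝ) ≤ n := Nat.cast_nonneg n
        linarith
      rw [div_lt_iff₀ h4]
      rw [div_lt_iff₀ hε] at hn
      nlinarith
  · push Not at hx
    obtain ⟨j, hj⟩ := hx
    obtain ⟨j, -, hj1, hj2⟩ := exists_least (n := j + 1) ⟨j, by omega, hj⟩
    have h1 : fst o x = j := fst_eq hj2 hj1
    apply ContinuousAt.congr (f := fun _ => e j) continuousAt_const
    filter_upwards [hcyl (j + 1)] with y hy
    have h2 : fst o y = j := by
      apply fst_eq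
      · intro i hi; rw [hy i (by omega)]; exact hj2 i hi
      · rw [hy j (by omega)]; exact hj1
    unfold phi
    rw [h2]

/-! ### Periodic points -/

/-- The periodic point with the letter `b` at the places `≡ m mod p` and `o` elsewhere. -/
def per (o b : A) (p m : ℕ) : ℕ → A := fun i => if i % p = m then b else o

lemma per_period (o b : A) (p m : ℕ) : shift^[p] (per o b p m) = per o b p m := by
  funext i
  rw [shift_iter]
  unfold per
  rw [Nat.add_mod_right]

/-- the Birkhoff sum of `phi` over the orbit of `(o^m b)^∞` -/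
lemma S_per {o b : A} (hb : b ≠ o) (m : ℕ) : S (phi o) (m + 1) (per o b (m + 1) m) = s m := by
  have h : ∀ k ∈ Finset.range (m + 1), phi o (shift^[k] (per o b (m + 1) m)) = e (m - k) := by
    intro k hk
    rw [Finset.mem_range] at hk
    unfold phi
    congr 1
    apply fst_eq
    · intro i hi
      rw [shift_iter]
      unfold per
      rw [if_neg]
      rw [Nat.mod_eq_of_lt (by omega)]
      omega
    · rw [shift_iter]
      unfold per
      rw [if_pos]
      · exact hb
      · rw [Nat.sub_add_cancel (by omega), Nat.mod_eq_of_lt (by omega)]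
  unfold S
  rw [Finset.sum_congr rfl h, ← sum_e m]
  rw [← Finset.sum_range_reflect]
  refine Finset.sum_congr rfl fun k hk => ?_
  rw [Finset.mem_range] at hk
  congr 1
  omega

lemma Wcob_per [TopologicalSpace A] [CompactSpace (ℕ → A)]
    {g : C(ℕ → A, ℝ)}
    (hg : g ∈ closure {f : C(ℕ → A, ℝ) | ∃ q : C(ℕ → A, ℝ), ∀ x, f x = q (shift x) - q x})
    {n : ℕ} {p : ℕ → A} (hp : shift^[n] p = p) : S g n p = 0 := by
  have hclosed : IsClosed {f : C(ℕ → A, ℝ) | S f n p = 0} := by
    apply isClosed_eq _ continuous_const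
    unfold S
    exact continuous_finsetSum _ fun k _ => continuous_eval_const _
  have hsub : {f : C(ℕ → A, ℝ) | ∃ q : C(ℕ → A, ℝ), ∀ x, f x = q (shift x) - q x} ⊆
      {f : C(ℕ → A, ℝ) | S f n p = 0} := by
    rintro f ⟨q, hq⟩
    show S f n p = 0
    unfold S
    simp_rw [hq]
    have : ∀ k, q (shift (shift^[k] p)) = q (shift^[k + 1] p) := by
      intro k
      rw [Function.iterate_succ_apply']
    simp_rw [this]
    rw [Finset.sum_range_sub (fun k => q (shift^[k] p)), hp]
    simp
  exact closure_minimal hsub hclosed hg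

/-- **Theorem.** Let `A` be a finite alphabet with at least two letters. On the full shift over `A`
there is a continuous Bowen function which is not of the form `g + h` with `g` in the closure (in the
sup norm) of the coboundaries `q ∘ σ - q` and `h` a continuous Walters function. -/
theorem result (A : Type*) [Finite A] [Nontrivial A] [TopologicalSpace A] [DiscreteTopology A] :
    ∃ φ : C(ℕ → A, ℝ), IsBowen φ ∧
      ∀ g ∈ closure {f : C(ℕ → A, ℝ) | ∃ q : C(ℕ → A, ℝ), ∀ x, f x = q (shift x) - q x},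
      ∀ h : C(ℕ → A, ℝ), IsWalters h → φ ≠ g + h := by
  obtain ⟨o, b, hob⟩ := exists_pair_ne A
  have hb : b ≠ o := hob.symm
  refine ⟨⟨phi o, phi_continuous o⟩, phi_bowen o, fun g hg h hh heq => ?_⟩
  have hval : ∀ x, phi o x = g x + h x := fun x => by
    have := congrArg (fun f : C(ℕ → A, ℝ) => f x) heq
    simpa using this
  have hper : ∀ n (p : ℕ → A), shift^[n] p = p → S h n p = S (phi o) n p := by
    intro n p hp
    have h1 := Wcob_per hg hp
    have h2 : S (phi o) n p = S g n p + S h n p := by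
      unfold S
      rw [← Finset.sum_add_distrib]
      exact Finset.sum_congr rfl fun k _ => hval _
    rw [h2, h1, zero_add]
  obtain ⟨ε, hε, hW⟩ := hh (1 / 4) (by norm_num)
  obtain ⟨N, hN⟩ := exists_pow_lt_of_lt_one hε (show (2 : ℝ)⁻¹ < 1 by norm_num)
  -- the comparison of Birkhoff sums
  have hcmp : ∀ n ≥ 1, ∀ x y : ℕ → A, (∀ i < n + N, x i = y i) → |S h n x - S h n y| < 1 / 4 := by
    intro n hn x y hxy
    apply hW n hn
    intro k hk
    apply d_lt hε hN
    intro i hi
    rw [shift_iter, shift_iter]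
    exact hxy _ (by omega)
  set m := 4 ^ N with hm
  have hmN : N ≤ m := le_of_lt (Nat.lt_pow_self (by norm_num))
  have hm1 : 1 ≤ m := Nat.one_le_pow _ _ (by norm_num)
  -- the point `(o^m b o^m)^∞` and its shift
  set Q := per o b (m + m + 1) m with hQ
  have hQs : shift^[m + 1] Q = per o b (m + m + 1) (m + m) := by
    funext i
    rw [shift_iter, hQ]
    unfold per
    have : (i + (m + 1)) % (m + m + 1) = m ↔ i % (m + m + 1) = m + m := by
      have hlt := Nat.mod_lt i (show 0 < m + m + 1 by omega)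
      rw [Nat.add_mod, Nat.mod_eq_of_lt (show m + 1 < m + m + 1 by omega)]
      rcases Nat.lt_or_ge (i % (m + m + 1) + (m + 1)) (m + m + 1) with h | h
      · rw [Nat.mod_eq_of_lt h]; omega
      · rw [Nat.mod_eq_sub_mod h, Nat.mod_eq_of_lt (by omega)]; omega
    simp only [this]
  have e1 : S h (m + m + 1) Q = S (phi o) (m + m + 1) Q := hper _ _ (per_period _ _ _ _)
  have e2 : S (phi o) (m + m + 1) Q = s (m + m) := by
    rw [← S_per hb (m + m)]
    have h1 : S (phi o) (m + 1 + (m + m + 1)) Q =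
        S (phi o) (m + 1) Q + S (phi o) (m + m + 1) (per o b (m + m + 1) (m + m)) := by
      rw [S_add, hQs]
    have h2 : S (phi o) ((m + m + 1) + (m + 1)) Q =
        S (phi o) (m + m + 1) Q + S (phi o) (m + 1) Q := by
      rw [S_add, hQ, per_period]
    rw [add_comm (m + m + 1) (m + 1)] at h2
    linarith
  have e3 : S h (m + 1) (per o b (m + 1) m) = s m := by
    rw [hper _ _ (per_period _ _ _ _), S_per hb]
  have e4 : S h m (fun _ => o) = 0 := by
    have hc : ∀ k, shift^[k] (fun _ : ℕ => o) = fun _ => o := by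
      intro k; funext i; rw [shift_iter]
    rw [hper m _ (hc m)]
    unfold S
    apply Finset.sum_eq_zero
    intro k _
    rw [hc k]
    unfold phi
    rw [fst_const (fun _ => rfl), e_zero]
  have e5 : S h (m + m + 1) Q = S h (m + 1) Q + S h m (per o b (m + m + 1) (m + m)) := by
    rw [show m + m + 1 = (m + 1) + m by omega, S_add, show (m + 1) + m = m + m + 1 by omega, hQs]
  have e6 : |S h (m + 1) Q - S h (m + 1) (per o b (m + 1) m)| < 1 / 4 := by
    apply hcmp _ (by omega)
    intro i hi
    rw [hQ]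
    unfold per
    have : i % (m + m + 1) = m ↔ i % (m + 1) = m := by
      rw [Nat.mod_eq_of_lt (show i < m + m + 1 by omega)]
      rcases Nat.lt_or_ge i (m + 1) with h | h
      · rw [Nat.mod_eq_of_lt h]
      · rw [Nat.mod_eq_sub_mod h, Nat.mod_eq_of_lt (show i - (m + 1) < m + 1 by omega)]
        omega
    simp only [this]
  have e7 : |S h m (per o b (m + m + 1) (m + m)) - S h m (fun _ => o)| < 1 / 4 := by
    apply hcmp _ hm1
    intro i hi
    unfold per
    rw [if_neg]
    rw [Nat.mod_eq_of_lt (by omega)]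
    omega
  rw [abs_lt] at e6 e7
  have e8 : s (m + m) = 1 := s_two_four N
  have e9 : s m = 0 := s_four N
  linarith [e6.1, e6.2, e7.1, e7.2]

end Pool.Agent.Results.MP_3e6e51_an.BowenNotWalters
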